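import Pool.Agent.H314.BK.FMain

set_option autoImplicit false

open BergmanCommutator

namespace Pool.Agent.Results.MP_b1e046_an.CompactCommutators

/-- Let `Ω ⊆ ℂⁿ` be a bounded pseudoconvex open set (no regularity of the boundary is needed) and
let `B` be its Bergman projection. If the commutator `[B, M_ψ]` is compact on `L²(Ω)` for every
`ψ ∈ C(closure Ω)`, then the `∂̄`-Neumann operator `N₁` of `Ω` on `(0,1)`-forms is compact. -/
theorem result {n : ℕ} (Ω : Set (En n)) (ho : IsOpen Ω) (hb : Bornology.IsBounded Ω)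
    (hp : Pseudoconvex Ω) (B : L2 Ω →L[ℂ] L2 Ω) (hB : IsBergmanProjection Ω B)
    (hcomm : ∀ ψ : En n → ℂ, ContinuousOn ψ (closure Ω) →
      ∀ M : L2 Ω →L[ℂ] L2 Ω, IsMul Ω ψ M → IsCompactOperator (B.comp M - M.comp B))
    (N : Form Ω →L[ℂ] Form Ω) (hN : IsNeumannOperator Ω N) : IsCompactOperator N :=
  BergmanCommutator.main Ω ho hb hp B hB hcomm N hN

end Pool.Agent.Results.MP_b1e046_an.CompactCommutators
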